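import Pool.Agent.H87.QP.Targets2

/-!
# No linear relation between the shifts of Liouville's function (MP_c59857_nt), theorem (LI):
the relations pass down to shorter windows, for the logarithmic means (LPS)
-/

set_option autoImplicit false

namespace Pool.Agent.H90.QP

open Finset Pool.Agent.H93.EB Pool.Agent.H28.NW Pool.Agent.H87.QP

/-- a function with values in `[0, 1]`, averaged over the windows behind the point -/
lemma shift_mean (X : Wn) (L : ℕ) (hL : 1 ≤ L) (F : ℕ → ℝ) (h0 : ∀ n, 0 ≤ F n)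
    (h1 : ∀ n, F n ≤ 1) :
    wlg X F ≤ wlg X (fun n => (∑ u ∈ Ioc n (n + L), F u) / L) + 3 * (1 + Real.log L) := by
  have hL' : (0 : ℝ) < L := by exact_mod_cast hL
  have hab : ∀ n, |F n| ≤ 1 := fun n => by
    rw [abs_of_nonneg (h0 n)]
    exact h1 n
  have e : ∀ n, (∑ u ∈ Ioc n (n + L), F u) / L = (L : ℝ)⁻¹ * ∑ j ∈ Icc 1 L, F (n + j) := by
    intro n
    rw [div_eq_mul_inv, mul_comm]
    congr 1
    symm
    apply sum_nbij' (fun j => n + j) (fun u => u - n)
    · intro j hj; rw [mem_Icc] at hj; rw [mem_Ioc]; omega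
    · intro u hu; rw [mem_Ioc] at hu; rw [mem_Icc]; omega
    · intro j _; simp
    · intro u hu; rw [mem_Ioc] at hu; show n + (u - n) = u; omega
    · intro j _; rfl
  have e2 : wlg X (fun n => (∑ u ∈ Ioc n (n + L), F u) / L) =
      (L : ℝ)⁻¹ * ∑ j ∈ Icc 1 L, wlg X (fun n => F (n + j)) := by
    rw [← wlg_sum, ← wlg_mul]
    congr 1
    funext n
    exact e n
  have h2 : ∀ j ∈ Icc 1 L, wlg X F - 3 * (1 + Real.log L) ≤ wlg X (fun n => F (n + j)) := by
    intro j hj
    have h3 := (abs_le.1 (wlg_shift X j F hab)).1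
    have h4 : hs j ≤ hs L := hs_mono (mem_Icc.1 hj).2
    have h5 := hs_le L
    linarith
  have h3 := card_nsmul_le_sum (Icc 1 L) _ _ h2
  rw [Nat.card_Icc, Nat.add_sub_cancel, nsmul_eq_mul] at h3
  rw [e2]
  have h4 : wlg X F - 3 * (1 + Real.log L) ≤
      (L : ℝ)⁻¹ * ∑ j ∈ Icc 1 L, wlg X (fun n => F (n + j)) := by
    rw [inv_mul_eq_div, le_div_iff₀ hL']
    linarith
  linarith

/-- LPS -/
theorem pf_LPS (hB : T_PSB) (hM : T_MPS) : T_LPS := by
  intro lam H L L' q X hl h1 h2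
  have hL : 1 ≤ L := h1.trans h2
  have h3 := shift_mean X L hL (fun n => ps lam H L' q n) (fun n => (hB lam H L' q n hl h1).1)
    (fun n => (hB lam H L' q n hl h1).2.1)
  have h4 : wlg X (fun n => (∑ u ∈ Ioc n (n + L), ps lam H L' q u) / L) ≤
      wlg X (fun n => ps lam H L q n + 2 * ((H : ℝ) + 1) ^ 2 * L' / L) :=
    wlg_mono fun n _ => hM lam H L L' q n hl h1 h2
  rw [wlg_add, wlg_const X (2 * ((H : ℝ) + 1) ^ 2 * L' / L)] at h4
  have h5 : 2 * ((H : ℝ) + 1) ^ 2 * L' / L * wlg X (fun _ => 1) ≤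
      2 * ((H : ℝ) + 1) ^ 2 * L' / L * (1 + X.L) :=
    mul_le_mul_of_nonneg_left (wlg_one_le X) (by positivity)
  have h6 : 0 ≤ Real.log L := Real.log_nonneg (by exact_mod_cast hL)
  linarith

end Pool.Agent.H90.QP
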